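import Pool.Agent.Helper84.TL.Defs

/-!
# Project TL (MP_56afde): one ordinary symbol, from the improved entropy bound

`gibbs_step_of` is TL-J with the statement `imp` of TL-H for `j = Y.card` as a hypothesis.
-/

set_option autoImplicit false

namespace Pool.Agent.Helper84.TL

open Finset Pool.Agent.Lead.TB

namespace GibbsAux

theorem mem_ls {n : ℕ} {L : Fin n → Equiv.Perm (Fin n)} :
    L ∈ ls n ↔ ∀ i j, i ≠ j → ∀ r, L i r ≠ L j r := by
  simp [ls, fac]

theorem mem_cls {n : ℕ} {L L' : Fin n → Equiv.Perm (Fin n)} {Y : Finset (Fin n)} :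
    L' ∈ cls L Y ↔ L' ∈ ls n ∧ ∀ s, s ∉ Y → L' s = L s := by
  simp [cls]

theorem self {n : ℕ} {L : Fin n → Equiv.Perm (Fin n)} (hL : L ∈ ls n) (Y : Finset (Fin n)) :
    L ∈ cls L Y := mem_cls.2 ⟨hL, fun _ _ => rfl⟩

/-- The columns of `sg L Y` at a row are the ones which are not used outside `Y`. -/
theorem mem_sg {n : ℕ} {L : Fin n → Equiv.Perm (Fin n)} (hL : L ∈ ls n) (Y : Finset (Fin n))
    (r c : Fin n) : c ∈ sg L Y r ↔ ∀ t, t ∉ Y → L t r ≠ c := by
  have hinj : Function.Injective fun t => L t r := by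
    intro a b hab
    by_contra hne
    exact mem_ls.1 hL a b hne r hab
  have hsurj : Function.Surjective fun t => L t r := Finite.surjective_of_injective hinj
  constructor
  · intro hc t ht h
    simp only [sg, Finset.mem_image] at hc
    obtain ⟨u, hu, hu'⟩ := hc
    have h1 : u = t := hinj (hu'.trans h.symm)
    exact ht (h1 ▸ hu)
  · intro h
    obtain ⟨t, ht⟩ := hsurj c
    simp only [sg, Finset.mem_image]
    refine ⟨t, ?_, ht⟩
    by_contra hY
    exact h t hY ht

theorem sg_eq {n : ℕ} {L L' : Fin n → Equiv.Perm (Fin n)} {Y : Finset (Fin n)} (hL : L ∈ ls n)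
    (h : L' ∈ cls L Y) : sg L' Y = sg L Y := by
  rw [mem_cls] at h
  funext r
  ext c
  rw [mem_sg hL, mem_sg h.1]
  constructor
  · intro hc t ht
    rw [← h.2 t ht]
    exact hc t ht
  · intro hc t ht
    rw [h.2 t ht]
    exact hc t ht

theorem reg {n : ℕ} {L : Fin n → Equiv.Perm (Fin n)} (hL : L ∈ ls n) (Y : Finset (Fin n)) :
    Reg Y.card (sg L Y) := by
  rw [mem_ls] at hL
  constructor
  · intro r
    apply Finset.card_image_of_injective
    intro a b hab
    by_contra hne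
    exact hL a b hne r hab
  · intro c
    have h1 : (univ.filter fun r => c ∈ sg L Y r) = Y.image fun t => (L t).symm c := by
      ext r
      simp only [sg, Finset.mem_filter, Finset.mem_univ, true_and, Finset.mem_image]
      constructor
      · rintro ⟨t, ht, h⟩
        exact ⟨t, ht, by rw [← h, Equiv.symm_apply_apply]⟩
      · rintro ⟨t, ht, h⟩
        exact ⟨t, ht, by rw [← h, Equiv.apply_symm_apply]⟩
    rw [h1]
    apply Finset.card_image_of_injective
    intro a b hab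
    by_contra hne
    simp only at hab
    apply hL a b hne ((L a).symm c)
    rw [Equiv.apply_symm_apply, hab, Equiv.apply_symm_apply]

theorem fibre {n : ℕ} {L₀ L₁ : Fin n → Equiv.Perm (Fin n)} {Y : Finset (Fin n)} {s : Fin n}
    (h₁ : L₁ ∈ cls L₀ Y) :
    (cls L₀ Y).filter (fun L => L s = L₁ s) = cls L₁ (Y.erase s) := by
  rw [mem_cls] at h₁
  ext L
  rw [Finset.mem_filter, mem_cls, mem_cls]
  constructor
  · rintro ⟨⟨h2, h3⟩, h4⟩
    refine ⟨h2, fun t ht => ?_⟩
    rw [Finset.mem_erase, not_and_or, not_not] at ht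
    rcases ht with ht | ht
    · rw [ht, h4]
    · rw [h3 t ht, h₁.2 t ht]
  · rintro ⟨h2, h3⟩
    refine ⟨⟨h2, fun t ht => ?_⟩, h3 s (Finset.notMem_erase s Y)⟩
    rw [h3 t (fun h => ht (Finset.mem_of_mem_erase h)), h₁.2 t ht]

/-- On one class. -/
theorem inner {n : ℕ} {L₀ : Fin n → Equiv.Perm (Fin n)} (hL₀ : L₀ ∈ ls n) {Y : Finset (Fin n)}
    {s : Fin n} (hs : s ∈ Y)
    (himp : ∑ σ ∈ pm (sg L₀ Y), Real.exp (-cost Y.card (sg L₀ Y) σ) ≤ 1) :
    ∑ L ∈ cls L₀ Y, Real.exp (-cost Y.card (sg L Y) (L s)) / ((cls L (Y.erase s)).card : ℝ)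
      ≤ 1 := by
  have hmaps : ∀ L ∈ cls L₀ Y, L s ∈ pm (sg L₀ Y) := by
    intro L hL
    simp only [pm, Finset.mem_filter, Finset.mem_univ, true_and]
    intro r
    rw [← sg_eq hL₀ hL]
    exact Finset.mem_image.2 ⟨s, hs, rfl⟩
  rw [← Finset.sum_fiberwise_of_maps_to hmaps]
  refine le_trans (Finset.sum_le_sum fun σ _ => ?_) himp
  by_cases hne : ((cls L₀ Y).filter fun L => L s = σ).Nonempty
  · obtain ⟨L₁, hL₁⟩ := hne
    rw [Finset.mem_filter] at hL₁
    have hf : ((cls L₀ Y).filter fun L => L s = σ) = cls L₁ (Y.erase s) := by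
      rw [← fibre hL₁.1, hL₁.2]
    have hpos : (0 : ℝ) < ((cls L₁ (Y.erase s)).card : ℝ) := by
      have : 0 < (cls L₁ (Y.erase s)).card :=
        Finset.card_pos.2 ⟨L₁, self (mem_cls.1 hL₁.1).1 _⟩
      exact_mod_cast this
    have hconst : ∀ L ∈ (cls L₀ Y).filter (fun L => L s = σ),
        Real.exp (-cost Y.card (sg L Y) (L s)) / ((cls L (Y.erase s)).card : ℝ) =
        Real.exp (-cost Y.card (sg L₀ Y) σ) / ((cls L₁ (Y.erase s)).card : ℝ) := by
      intro L hL
      rw [Finset.mem_filter] at hL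
      have h1 : cls L (Y.erase s) = cls L₁ (Y.erase s) := by
        rw [← fibre hL.1, hL.2, hf]
      rw [h1, sg_eq hL₀ hL.1, hL.2]
    rw [Finset.sum_congr rfl hconst, Finset.sum_const, hf, nsmul_eq_mul]
    rw [mul_div_cancel₀ _ hpos.ne']
  · rw [Finset.not_nonempty_iff_eq_empty] at hne
    rw [hne, Finset.sum_empty]
    exact (Real.exp_pos _).le

end GibbsAux

open GibbsAux in
/-- TL-J, with the improved entropy bound for the graphs `sg L Y` as a hypothesis. -/
theorem gibbs_step_of {n : ℕ} (E : Finset (Fin n → Equiv.Perm (Fin n))) (hE : E ⊆ ls n)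
    (Y : Finset (Fin n)) (hcl : ∀ L ∈ E, ∀ L' ∈ cls L Y, L' ∈ E) {s : Fin n} (hs : s ∈ Y)
    (himp : ∀ G : Gr n, Reg Y.card G → ∑ σ ∈ pm G, Real.exp (-cost Y.card G σ) ≤ 1) :
    ∑ L ∈ E, Real.log (cls L Y).card ≤
      ∑ L ∈ E, (cost Y.card (sg L Y) (L s) + Real.log (cls L (Y.erase s)).card) := by
  have hpos : ∀ L ∈ E, ∀ Z : Finset (Fin n), (0 : ℝ) < ((cls L Z).card : ℝ) := by
    intro L hL Z
    have : 0 < (cls L Z).card := Finset.card_pos.2 ⟨L, self (hE hL) _⟩
    exact_mod_cast this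
  have hsymm : ∀ {L L' : Fin n → Equiv.Perm (Fin n)}, L ∈ ls n → L' ∈ cls L Y → L ∈ cls L' Y := by
    intro L L' hL h
    rw [mem_cls] at h ⊢
    exact ⟨hL, fun t ht => (h.2 t ht).symm⟩
  have key : ∑ L ∈ E, ((cls L Y).card : ℝ) *
      (Real.exp (-cost Y.card (sg L Y) (L s)) / ((cls L (Y.erase s)).card : ℝ)) ≤ E.card := by
    have h1 : ∑ L ∈ E, ((cls L Y).card : ℝ) *
        (Real.exp (-cost Y.card (sg L Y) (L s)) / ((cls L (Y.erase s)).card : ℝ)) =
        ∑ L ∈ E, ∑ _L' ∈ cls L Y,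
          Real.exp (-cost Y.card (sg L Y) (L s)) / ((cls L (Y.erase s)).card : ℝ) := by
      refine Finset.sum_congr rfl fun L _ => ?_
      rw [Finset.sum_const, nsmul_eq_mul]
    have h2 : ∑ L ∈ E, ∑ _L' ∈ cls L Y,
          Real.exp (-cost Y.card (sg L Y) (L s)) / ((cls L (Y.erase s)).card : ℝ) =
        ∑ L' ∈ E, ∑ L ∈ cls L' Y,
          Real.exp (-cost Y.card (sg L Y) (L s)) / ((cls L (Y.erase s)).card : ℝ) := by
      apply Finset.sum_comm'
      intro L L'
      constructor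
      · rintro ⟨h3, h4⟩
        exact ⟨hsymm (hE h3) h4, hcl L h3 L' h4⟩
      · rintro ⟨h3, h4⟩
        exact ⟨hcl L' h4 L h3, hsymm (hE h4) h3⟩
    rw [h1, h2]
    calc ∑ L' ∈ E, ∑ L ∈ cls L' Y,
          Real.exp (-cost Y.card (sg L Y) (L s)) / ((cls L (Y.erase s)).card : ℝ)
        ≤ ∑ _L' ∈ E, (1 : ℝ) :=
          Finset.sum_le_sum fun L' hL' => inner (hE hL') hs (himp _ (reg (hE hL') Y))
      _ = E.card := by simp
  have hlog : ∀ L ∈ E, Real.log (cls L Y).card ≤
      (cost Y.card (sg L Y) (L s) + Real.log (cls L (Y.erase s)).card) +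
      (((cls L Y).card : ℝ) *
      (Real.exp (-cost Y.card (sg L Y) (L s)) / ((cls L (Y.erase s)).card : ℝ)) - 1) := by
    intro L hL
    have h1 := hpos L hL Y
    have h2 := hpos L hL (Y.erase s)
    have h3 := Real.exp_pos (-cost Y.card (sg L Y) (L s))
    have h4 := Real.log_le_sub_one_of_pos
      (mul_pos h1 (div_pos h3 h2))
    rw [Real.log_mul h1.ne' (div_pos h3 h2).ne', Real.log_div h3.ne' h2.ne', Real.log_exp] at h4
    linarith
  have h5 := Finset.sum_le_sum hlog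
  rw [Finset.sum_add_distrib, Finset.sum_sub_distrib] at h5
  simp only [Finset.sum_const, nsmul_eq_mul, mul_one] at h5
  linarith

end Pool.Agent.Helper84.TL
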